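import Pool.Agent.H33.EN.Tree

/-! The Bellman function inequality for marked cells. -/

namespace H33EN

open Finset

lemma phi_le (M x : ℝ) :
    4*x^2 + 2*(max M x)^2 - 4*(max M x)*x ≤ 4*x^2 + 2*M^2 - 4*M*x := by
  rcases le_total x M with h | h
  · rw [max_eq_left h]
  · rw [max_eq_right h]
    nlinarith [sq_nonneg (x - M)]

theorem bellman {ι : Type*} [DecidableEq ι] (b : ℕ → ℕ → ℝ)
    (hb : ∀ k j, b k j = (b (k+1) (2*j) + b (k+1) (2*j+1)) / 2)
    (I : Finset ι) (kT jT kR jR : ι → ℕ) (D : ℕ)
    (hD : ∀ i ∈ I, kT i < D)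
    (hR : ∀ i ∈ I, sub (kT i) (jT i) (kR i) (jR i))
    (hne : ∀ i ∈ I, ∀ i' ∈ I, i ≠ i' → ¬ (kT i = kT i' ∧ jT i = jT i'))
    (hn : ∀ i ∈ I, ∀ i' ∈ I, i ≠ i' → sub (kT i') (jT i') (kT i) (jT i) → kT i ≤ kR i') :
    ∀ (d k j : ℕ) (r M : ℝ), k + d = D → |b k j - r| ≤ M →
      (∀ i ∈ I, sub (kT i) (jT i) k j → kR i < k → |b (kR i) (jR i) - r| ≤ M) →
      ∑ i ∈ I.filter (fun i => sub (kT i) (jT i) k j),
        (b (kT i) (jT i) - b (kR i) (jR i))^2 / 2^(kT i)
      ≤ 4 * (4 * En b d k j + 4*(b k j - r)^2 + 2*M^2 - 4*M*|b k j - r|) / 2^k := by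
  intro d
  induction d with
  | zero =>
    intro k j r M hk hM hc
    have hemp : I.filter (fun i => sub (kT i) (jT i) k j) = ∅ := by
      apply filter_eq_empty_iff.2
      intro i hi hs
      have := hD i hi
      have := hs.1
      omega
    rw [hemp, sum_empty]
    simp only [En]
    apply div_nonneg _ (by positivity)
    have h0 : (b k j - r)^2 = |b k j - r|^2 := (sq_abs _).symm
    rw [h0]
    nlinarith [sq_nonneg (2*|b k j - r| - M), sq_nonneg M]
  | succ d ih =>
    intro k j r M hk hM hc
    have hM0 : 0 ≤ M := le_trans (abs_nonneg _) hM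
    set f : ι → ℝ := fun i => (b (kT i) (jT i) - b (kR i) (jR i))^2 / 2^(kT i) with hf
    have hsplit : ∑ i ∈ I.filter (fun i => sub (kT i) (jT i) k j), f i
        = ∑ i ∈ I.filter (fun i => kT i = k ∧ jT i = j), f i
          + (∑ i ∈ I.filter (fun i => sub (kT i) (jT i) (k+1) (2*j)), f i
          + ∑ i ∈ I.filter (fun i => sub (kT i) (jT i) (k+1) (2*j+1)), f i) := by
      rw [← sum_union, ← sum_union]
      · apply sum_congr _ (fun _ _ => rfl)
        ext i
        simp only [mem_filter, mem_union]
        rw [sub_child]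
        tauto
      · rw [disjoint_left]
        intro i hi hi'
        simp only [mem_filter, mem_union] at hi hi'
        rcases hi' with ⟨_, h⟩ | ⟨_, h⟩
        · have := h.1; omega
        · have := h.1; omega
      · rw [disjoint_left]
        intro i hi hi'
        simp only [mem_filter] at hi hi'
        exact sub_disj _ _ _ _ hi.2 hi'.2
    rw [hsplit]
    have hEn : En b (d+1) k j
        = (del b k j)^2 + (En b d (k+1) (2*j) + En b d (k+1) (2*j+1)) / 2 := rfl
    have hx0 : b (k+1) (2*j) = b k j + del b k j := by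
      rw [hb k j]; unfold del; ring
    have hx1 : b (k+1) (2*j+1) = b k j - del b k j := by
      rw [hb k j]; unfold del; ring
    have hE0 := En_nonneg b d (k+1) (2*j)
    have hE1 := En_nonneg b d (k+1) (2*j+1)
    have hxx : (b k j - r)^2 = |b k j - r|^2 := (sq_abs _).symm
    have hp : (0:ℝ) < 2^k := by positivity
    by_cases hex : ∃ i0 ∈ I, kT i0 = k ∧ jT i0 = j
    · obtain ⟨i0, hi0, hk0, hj0⟩ := hex
      have hsing : I.filter (fun i => kT i = k ∧ jT i = j) = {i0} := by
        ext i
        simp only [mem_filter, mem_singleton]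
        constructor
        · rintro ⟨h1, h2, h3⟩
          by_contra hne'
          exact hne i h1 i0 hi0 hne' ⟨by omega, by omega⟩
        · rintro rfl
          exact ⟨hi0, hk0, hj0⟩
      rw [hsing, sum_singleton]
      have hfirst : f i0 ≤ 4*M^2/2^k := by
        simp only [hf]
        rw [hk0, hj0]
        apply div_le_div_of_nonneg_right _ hp.le
        have h1 : |b (kR i0) (jR i0) - r| ≤ M := by
          have hs := hR i0 hi0
          rcases Nat.eq_or_lt_of_le hs.1 with h | h
          · have hj : jR i0 = j := by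
              have := hs.2
              rw [h] at this
              simp at this
              omega
            rw [h, hk0, hj]
            exact hM
          · apply hc i0 hi0
            · rw [hk0, hj0]; exact sub_self k j
            · omega
        have h2 : |b k j - b (kR i0) (jR i0)| ≤ 2*M := by
          have : b k j - b (kR i0) (jR i0) = (b k j - r) - (b (kR i0) (jR i0) - r) := by ring
          rw [this]
          refine (abs_sub _ _).trans ?_
          linarith
        rw [← sq_abs]
        calc |b k j - b (kR i0) (jR i0)|^2 ≤ (2*M)^2 := pow_le_pow_left₀ (abs_nonneg _) h2 2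
          _ = 4*M^2 := by ring
      have hch : ∀ c, (c = 2*j ∨ c = 2*j+1) → ∀ i ∈ I, sub (kT i) (jT i) (k+1) c →
          kR i < k+1 → |b (kR i) (jR i) - b k j| ≤ |del b k j| := by
        intro c hcc i hi hs hlt
        have hs' : sub (kT i) (jT i) k j := by
          rw [sub_child]
          rcases hcc with rfl | rfl
          · exact Or.inr (Or.inl hs)
          · exact Or.inr (Or.inr hs)
        have hni : i0 ≠ i := by
          rintro rfl
          have := hs.1
          omega
        have h1 := hn i0 hi0 i hi hni (by rw [hk0, hj0]; exact hs')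
        have h2 : kR i = k := by omega
        have h3 : jR i = j := by
          have h4 := (hR i hi).2
          have h5 := hs'.2
          rw [h2] at h4
          omega
        rw [h2, h3]
        simp
      have g0 := ih (k+1) (2*j) (b k j) |del b k j| (by omega)
        (by rw [hx0]; simp) (hch _ (Or.inl rfl))
      have g1 := ih (k+1) (2*j+1) (b k j) |del b k j| (by omega)
        (by rw [hx1]; simp) (hch _ (Or.inr rfl))
      have e0 : b (k+1) (2*j) - b k j = del b k j := by rw [hx0]; ring
      have e1 : b (k+1) (2*j+1) - b k j = -del b k j := by rw [hx1]; ring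
      rw [e0] at g0
      rw [e1] at g1
      rw [sq_abs, mul_assoc, abs_mul_abs_self] at g0
      rw [abs_neg, sq_abs, mul_assoc, abs_mul_abs_self, neg_sq] at g1
      refine (add_le_add hfirst (add_le_add g0 g1)).trans ?_
      rw [hEn, hxx, pow_succ (2:ℝ) k]
      rw [← sub_nonneg]
      have : 4 * (4 * ((del b k j)^2 + (En b d (k+1) (2*j) + En b d (k+1) (2*j+1)) / 2)
          + 4*|b k j - r|^2 + 2*M^2 - 4*M*|b k j - r|) / 2^k
          - (4*M^2/2^k + (4 * (4 * En b d (k+1) (2*j) + 4*(del b k j)^2 + 2*(del b k j)^2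
            - 4*(del b k j * del b k j)) / (2^k*2)
            + 4 * (4 * En b d (k+1) (2*j+1) + 4*(del b k j)^2 + 2*(del b k j)^2
            - 4*(del b k j * del b k j)) / (2^k*2)))
          = (4*(2*|b k j - r| - M)^2 + 8*(del b k j)^2)/2^k := by
        field_simp
        ring
      rw [this]
      positivity
    · have hemp : I.filter (fun i => kT i = k ∧ jT i = j) = ∅ := by
        apply filter_eq_empty_iff.2
        intro i hi hs
        exact hex ⟨i, hi, hs⟩
      rw [hemp, sum_empty, zero_add]
      have hch : ∀ c, (c = 2*j ∨ c = 2*j+1) → ∀ i ∈ I, sub (kT i) (jT i) (k+1) c →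
          kR i < k+1 → |b (kR i) (jR i) - r| ≤ M := by
        intro c hcc i hi hs hlt
        have hs' : sub (kT i) (jT i) k j := by
          rw [sub_child]
          rcases hcc with rfl | rfl
          · exact Or.inr (Or.inl hs)
          · exact Or.inr (Or.inr hs)
        rcases Nat.lt_or_ge (kR i) k with h | h
        · exact hc i hi hs' h
        · have h2 : kR i = k := by omega
          have h3 : jR i = j := by
            have h4 := (hR i hi).2
            have h5 := hs'.2
            rw [h2] at h4
            omega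
          rw [h2, h3]
          exact hM
      have g0 := ih (k+1) (2*j) r (max M |b (k+1) (2*j) - r|) (by omega)
        (le_max_right _ _) (fun i hi hs hl => (hch _ (Or.inl rfl) i hi hs hl).trans (le_max_left _ _))
      have g1 := ih (k+1) (2*j+1) r (max M |b (k+1) (2*j+1) - r|) (by omega)
        (le_max_right _ _) (fun i hi hs hl => (hch _ (Or.inr rfl) i hi hs hl).trans (le_max_left _ _))
      have p0 := phi_le M |b (k+1) (2*j) - r|
      have p1 := phi_le M |b (k+1) (2*j+1) - r|
      have g0' : ∑ i ∈ I.filter (fun i => sub (kT i) (jT i) (k+1) (2*j)), f i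
          ≤ 4 * (4 * En b d (k+1) (2*j) + (4*(b (k+1) (2*j) - r)^2 + 2*M^2
            - 4*M*|b (k+1) (2*j) - r|)) / 2^(k+1) := by
        refine g0.trans ?_
        apply div_le_div_of_nonneg_right _ (by positivity)
        rw [sq_abs] at p0
        linarith
      have g1' : ∑ i ∈ I.filter (fun i => sub (kT i) (jT i) (k+1) (2*j+1)), f i
          ≤ 4 * (4 * En b d (k+1) (2*j+1) + (4*(b (k+1) (2*j+1) - r)^2 + 2*M^2
            - 4*M*|b (k+1) (2*j+1) - r|)) / 2^(k+1) := by
        refine g1.trans ?_
        apply div_le_div_of_nonneg_right _ (by positivity)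
        rw [sq_abs] at p1
        linarith
      refine (add_le_add g0' g1').trans ?_
      have htri : 2*|b k j - r| ≤ |b (k+1) (2*j) - r| + |b (k+1) (2*j+1) - r| := by
        have : 2*|b k j - r| = |(b (k+1) (2*j) - r) + (b (k+1) (2*j+1) - r)| := by
          rw [hx0, hx1, show (b k j + del b k j - r) + (b k j - del b k j - r)
            = 2*(b k j - r) by ring, abs_mul, abs_two]
        rw [this]
        exact abs_add_le _ _
      rw [← add_div, pow_succ (2:ℝ) k, div_le_div_iff₀ (by positivity) hp]
      rw [hEn]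
      have hsq : (b (k+1) (2*j) - r)^2 + (b (k+1) (2*j+1) - r)^2
          = 2*(b k j - r)^2 + 2*(del b k j)^2 := by
        rw [hx0, hx1]; ring
      have hmul := mul_le_mul_of_nonneg_left htri hM0
      have : 4 * (4 * En b d (k+1) (2*j) + (4*(b (k+1) (2*j) - r)^2 + 2*M^2
            - 4*M*|b (k+1) (2*j) - r|)) + 4 * (4 * En b d (k+1) (2*j+1)
            + (4*(b (k+1) (2*j+1) - r)^2 + 2*M^2 - 4*M*|b (k+1) (2*j+1) - r|))
          ≤ (4 * (4 * ((del b k j)^2 + (En b d (k+1) (2*j) + En b d (k+1) (2*j+1)) / 2)
          + 4*(b k j - r)^2 + 2*M^2 - 4*M*|b k j - r|))*2 := by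
        nlinarith
      nlinarith
  
end H33EN
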