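import Pool.Agent.H33.EN.Grid

/-! Counting lemmas. -/

namespace H33EN

open Finset Pool.Agent.H66.GSC MeasureTheory

/-- total length of disjoint intervals inside `[a, b]` -/
lemma sum_len {ι : Type*} [DecidableEq ι] (J : Finset ι) (p t : ι → ℝ) (a b : ℝ) (hab : a ≤ b)
    (ht : ∀ i ∈ J, 0 ≤ t i) (hin : ∀ i ∈ J, a ≤ p i - t i ∧ p i ≤ b)
    (hdis : ∀ i ∈ J, ∀ i' ∈ J, i ≠ i' →
      ∀ x, p i - t i < x → x ≤ p i → p i' - t i' < x → x ≤ p i' → False) :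
    ∑ i ∈ J, t i ≤ b - a := by
  have h1 : volume (⋃ i ∈ J, Set.Ioc (p i - t i) (p i)) = ∑ i ∈ J, volume (Set.Ioc (p i - t i) (p i)) := by
    apply measure_biUnion_finset
    · intro i hi i' hi' hne
      rw [Function.onFun, Set.disjoint_left]
      intro x hx hx'
      exact hdis i hi i' hi' hne x hx.1 hx.2 hx'.1 hx'.2
    · intro i _
      exact measurableSet_Ioc
  have h2 : volume (⋃ i ∈ J, Set.Ioc (p i - t i) (p i)) ≤ volume (Set.Ioc a b) := by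
    apply measure_mono
    intro x hx
    simp only [Set.mem_iUnion] at hx
    obtain ⟨i, hi, hx⟩ := hx
    exact ⟨lt_of_le_of_lt (hin i hi).1 hx.1, hx.2.trans (hin i hi).2⟩
  rw [h1] at h2
  simp only [Real.volume_Ioc] at h2
  have h3 : ∑ i ∈ J, ENNReal.ofReal (p i - (p i - t i)) = ENNReal.ofReal (∑ i ∈ J, t i) := by
    rw [ENNReal.ofReal_sum_of_nonneg ht]
    apply sum_congr rfl
    intro i _
    congr 1
    ring
  rw [h3] at h2
  exact (ENNReal.ofReal_le_ofReal_iff (by linarith)).1 h2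

/-- grouping by cells -/
lemma group {ι : Type*} [DecidableEq ι] (J : Finset ι) (t : ι → ℝ) (kR jR : ι → ℕ)
    (w : ℕ → ℕ → ℝ) (hw : ∀ k j, 0 ≤ w k j) (k0 n : ℕ)
    (hk : ∀ i ∈ J, k0 ≤ kR i ∧ kR i < k0 + n ∧ jR i < 2^(kR i)) (C : ℝ)
    (hfib : ∀ k j, ∑ i ∈ J.filter (fun i => kR i = k ∧ jR i = j), t i ≤ C * sz k) :
    ∑ i ∈ J, t i * w (kR i) (jR i)
      ≤ C * ∑ k ∈ range n, ∑ j ∈ range (2^(k0+k)), sz (k0+k) * w (k0+k) j := by
  classical
  set A : Finset (Σ _ : ℕ, ℕ) := (range n).sigma (fun k => range (2^(k0+k))) with hA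
  have hmap : ∀ i ∈ J, (⟨kR i - k0, jR i⟩ : Σ _ : ℕ, ℕ) ∈ A := by
    intro i hi
    obtain ⟨h1, h2, h3⟩ := hk i hi
    simp only [hA, mem_sigma, mem_range]
    refine ⟨by omega, ?_⟩
    rwa [Nat.add_sub_cancel' h1]
  rw [← sum_fiberwise_of_maps_to hmap (fun i => t i * w (kR i) (jR i))]
  rw [mul_sum]
  simp only [mul_sum]
  rw [hA, sum_sigma]
  apply sum_le_sum
  intro k _
  apply sum_le_sum
  intro j _
  have hset : J.filter (fun i => (⟨kR i - k0, jR i⟩ : Σ _ : ℕ, ℕ) = ⟨k, j⟩)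
      = J.filter (fun i => kR i = k0 + k ∧ jR i = j) := by
    apply filter_congr
    intro i hi
    obtain ⟨h1, h2, h3⟩ := hk i hi
    simp only [Sigma.mk.injEq, heq_eq_eq]
    constructor
    · rintro ⟨h4, h5⟩
      exact ⟨by omega, h5⟩
    · rintro ⟨h4, h5⟩
      exact ⟨by omega, h5⟩
  rw [hset]
  have h1 : ∑ i ∈ J.filter (fun i => kR i = k0 + k ∧ jR i = j), t i * w (kR i) (jR i)
      = (∑ i ∈ J.filter (fun i => kR i = k0 + k ∧ jR i = j), t i) * w (k0+k) j := by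
    rw [sum_mul]
    apply sum_congr rfl
    intro i hi
    simp only [mem_filter] at hi
    rw [hi.2.1, hi.2.2]
  rw [h1]
  have := mul_le_mul_of_nonneg_right (hfib (k0+k) j) (hw (k0+k) j)
  linarith

/-- `group` for the squares of the majorant -/
lemma group_SS {ι : Type*} [DecidableEq ι] (b : ℕ → ℕ → ℝ) (c : ℝ) (hc : 0 ≤ c) (ζ : ℝ) (k0 n : ℕ)
    (htail : ∀ k ≥ k0, ∀ n, ∑ i ∈ range n, ee b (k+i) ≤ ζ) (D : ℕ)
    (J : Finset ι) (t : ι → ℝ) (kR jR : ι → ℕ)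
    (hk : ∀ i ∈ J, k0 ≤ kR i ∧ kR i < k0 + n ∧ jR i < 2^(kR i)) (C : ℝ) (hC : 0 ≤ C)
    (hfib : ∀ k j, ∑ i ∈ J.filter (fun i => kR i = k ∧ jR i = j), t i ≤ C * sz k) :
    ∑ i ∈ J, t i * (SS b c D (kR i) (jR i))^2
      ≤ C * (32 * (50 * ζ + n * ((21/25)^D * c^2))) := by
  refine (group J t kR jR (fun k j => (SS b c D k j)^2) (fun _ _ => sq_nonneg _) k0 n hk C
    hfib).trans ?_
  apply mul_le_mul_of_nonneg_left _ hC
  have h := sum_TT_le b c hc ζ k0 htail D n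
  have h1 : ∑ k ∈ range n, ∑ j ∈ range (2^(k0+k)), sz (k0+k) * (SS b c D (k0+k) j)^2
      = 32 * ∑ k ∈ range n, TT b c D (k0+k) := by
    rw [mul_sum]
    apply sum_congr rfl
    intro k _
    unfold TT sz
    rw [← mul_sum]
    ring
  rw [h1]
  exact mul_le_mul_of_nonneg_left h (by norm_num)

/-- `group` for the squares of the sizes -/
lemma group_sz {ι : Type*} [DecidableEq ι] (k0 n : ℕ)
    (J : Finset ι) (t : ι → ℝ) (kR jR : ι → ℕ)
    (hk : ∀ i ∈ J, k0 ≤ kR i ∧ kR i < k0 + n ∧ jR i < 2^(kR i)) (C : ℝ) (hC : 0 ≤ C)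
    (hfib : ∀ k j, ∑ i ∈ J.filter (fun i => kR i = k ∧ jR i = j), t i ≤ C * sz k) :
    ∑ i ∈ J, t i * (sz (kR i))^2 ≤ C * (64 * (sz k0)^2) := by
  refine (group J t kR jR (fun k _ => (sz k)^2) (fun _ _ => sq_nonneg _) k0 n hk C
    hfib).trans ?_
  apply mul_le_mul_of_nonneg_left _ hC
  have h1 : ∀ k ∈ range n, ∑ j ∈ range (2^(k0+k)), sz (k0+k) * (sz (k0+k))^2
      = 32 * (sz k0)^2 * (1/4)^k := by
    intro k _
    rw [sum_const, card_range, nsmul_eq_mul]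
    unfold sz
    push_cast
    rw [pow_add]
    have : ((1:ℝ)/4)^k = 1/(2^k)^2 := by
      rw [div_pow, one_pow, show (4:ℝ) = 2^2 by norm_num, ← pow_mul, ← pow_mul, mul_comm 2 k]
    rw [this]
    field_simp
  rw [sum_congr rfl h1, ← mul_sum]
  have h4 : ∑ i ∈ range n, ((1:ℝ)/4)^i ≤ 2 := by
    rw [geom_sum_eq (by norm_num : (1:ℝ)/4 ≠ 1) n]
    have hp : 0 ≤ ((1:ℝ)/4)^n := by positivity
    rw [div_le_iff_of_neg (by norm_num)]
    linarith
  have h5 : 0 ≤ 32 * (sz k0)^2 := by positivity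
  nlinarith

end H33EN
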