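import Pool.Agent.H66.GSC.Hr

/-! Local oscillation bound: Hölder control of `F` on a cell by the depth-`D` majorant. -/

namespace H33EN

open Finset Pool.Agent.H66.GSC

/-- mean slope of `F` on `[x, x+h]` -/
noncomputable def av (F : ℝ → ℝ) (x h : ℝ) : ℝ := (F (x+h) - F x) / h

/-- half difference of the slopes of the halves -/
noncomputable def dl (F : ℝ → ℝ) (x h : ℝ) : ℝ := (av F x (h/2) - av F (x+h/2) (h/2)) / 2

lemma av_eq (F : ℝ → ℝ) (x h : ℝ) (hh : 0 < h) :
    av F x h = (av F x (h/2) + av F (x+h/2) (h/2)) / 2 := by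
  unfold av
  rw [show x + h/2 + h/2 = x + h by ring]
  field_simp
  ring

lemma av_mul (F : ℝ → ℝ) (x h : ℝ) (hh : 0 < h) : av F x h * h = F (x+h) - F x := by
  unfold av; field_simp

/-- majorant -/
noncomputable def SL (F : ℝ → ℝ) (c : ℝ) : ℕ → ℝ → ℝ → ℝ
  | 0, _, _ => c
  | D+1, x, h => |dl F x h| + 3/5 * max (SL F c D x (h/2)) (SL F c D (x+h/2) (h/2))

lemma SL_nonneg (F : ℝ → ℝ) (c : ℝ) (hc : 0 ≤ c) (D : ℕ) (x h : ℝ) : 0 ≤ SL F c D x h := by
  induction D generalizing x h with
  | zero => exact hc
  | succ d ih =>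
    have : 0 ≤ max (SL F c d x (h/2)) (SL F c d (x+h/2) (h/2)) := le_max_of_le_left (ih _ _)
    simp only [SL]
    positivity

lemma hr_half {s h : ℝ} (hs : 0 ≤ s) (hh : 0 < h) : hr (s / (h/2)) ≤ 6/5 * hr (s/h) := by
  have h1 : s/(h/2) = (s/h) * 2 := by field_simp
  have h2 : hr (s/h*2) = hr (s/h) * hr 2 := hr_mul (by positivity) 2
  have h3 : hr 2 ≤ 6/5 := hr_le (by norm_num) (by norm_num)
  have h4 := hr_nonneg (s/h)
  rw [h1, h2]
  nlinarith

lemma step_half {E' d s h S' : ℝ} (hs : 0 ≤ s) (hh : 0 < h) (hsh : s ≤ h) (hS : 0 ≤ S')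
    (hE : |E'| ≤ h/2 * S' * hr (s/(h/2))) :
    |E' + d * s| ≤ h * (|d| + 3/5 * S') * hr (s/h) := by
  have h1 := hr_half hs hh
  have h2 : |E'| ≤ h * (3/5 * S') * hr (s/h) := by
    refine hE.trans ?_
    have : h/2 * S' * hr (s/(h/2)) ≤ h/2 * S' * (6/5 * hr (s/h)) :=
      mul_le_mul_of_nonneg_left h1 (by positivity)
    refine this.trans (le_of_eq (by ring))
  have h3 : |d * s| ≤ h * |d| * hr (s/h) := by
    rw [abs_mul, abs_of_nonneg hs]
    have h4 : s / h ≤ hr (s/h) := le_hr_self (by positivity) ((div_le_one hh).2 hsh)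
    have h5 : s ≤ h * hr (s/h) := by
      rw [div_le_iff₀ hh] at h4
      linarith
    calc |d| * s ≤ |d| * (h * hr (s/h)) := mul_le_mul_of_nonneg_left h5 (abs_nonneg _)
      _ = h * |d| * hr (s/h) := by ring
  calc |E' + d * s| ≤ |E'| + |d * s| := abs_add_le _ _
    _ ≤ h * (3/5 * S') * hr (s/h) + h * |d| * hr (s/h) := add_le_add h2 h3
    _ = h * (|d| + 3/5 * S') * hr (s/h) := by ring

/-- control of the deviation from the chord -/
theorem dev_one (F : ℝ → ℝ) (K : ℝ) (hF : ∀ x y, |F y - F x| ≤ K * |y - x|) (hK : 0 ≤ K) :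
    ∀ (D : ℕ) (x h v : ℝ), 0 < h → x ≤ v → v ≤ x + h →
      |F v - F x - av F x h * (v - x)| ≤ h * SL F (2*K) D x h * hr ((v - x)/h) ∧
      |F v - F x - av F x h * (v - x)| ≤ h * SL F (2*K) D x h * hr ((x + h - v)/h) := by
  intro D
  induction D with
  | zero =>
    intro x h v hh hv1 hv2
    have key : ∀ s E, 0 ≤ s → s ≤ h → |E| ≤ 2*K*s → |E| ≤ h * SL F (2*K) 0 x h * hr (s/h) := by
      intro s E hs hsh hE
      have h4 : s / h ≤ hr (s/h) := le_hr_self (by positivity) ((div_le_one hh).2 hsh)
      have h5 : s ≤ h * hr (s/h) := by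
        rw [div_le_iff₀ hh] at h4
        linarith
      simp only [SL]
      have := mul_le_mul_of_nonneg_left h5 (by positivity : 0 ≤ 2*K)
      nlinarith
    have hav : |av F x h| ≤ K := by
      unfold av
      rw [abs_div, abs_of_pos hh, div_le_iff₀ hh]
      have := hF x (x+h)
      rwa [show x + h - x = h by ring, abs_of_pos hh] at this
    constructor
    · apply key _ _ (by linarith) (by linarith)
      have h1 := hF x v
      rw [abs_of_nonneg (by linarith : 0 ≤ v - x)] at h1
      have h2 : |av F x h * (v - x)| ≤ K * (v-x) := by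
        rw [abs_mul, abs_of_nonneg (by linarith : 0 ≤ v - x)]
        exact mul_le_mul_of_nonneg_right hav (by linarith)
      have := abs_sub (F v - F x) (av F x h * (v - x))
      linarith
    · apply key _ _ (by linarith) (by linarith)
      have h1 := hF v (x+h)
      rw [abs_of_nonneg (by linarith : 0 ≤ x + h - v)] at h1
      have h2 : |av F x h * (x + h - v)| ≤ K * (x+h-v) := by
        rw [abs_mul, abs_of_nonneg (by linarith : 0 ≤ x + h - v)]
        exact mul_le_mul_of_nonneg_right hav (by linarith)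
      have h3 : F v - F x - av F x h * (v - x)
          = av F x h * (x+h-v) - (F (x+h) - F v) := by
        have := av_mul F x h hh
        linarith
      rw [h3]
      have := abs_sub (av F x h * (x+h-v)) (F (x+h) - F v)
      linarith
  | succ D ih =>
    intro x h v hh hv1 hv2
    have hh2 : 0 < h/2 := by positivity
    have hS0 := SL_nonneg F (2*K) (by positivity) D x (h/2)
    have hS1 := SL_nonneg F (2*K) (by positivity) D (x+h/2) (h/2)
    have hmid := av_eq F x h hh
    simp only [SL]
    set S0 := SL F (2*K) D x (h/2)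
    set S1 := SL F (2*K) D (x+h/2) (h/2)
    have hm0 : S0 ≤ max S0 S1 := le_max_left _ _
    have hm1 : S1 ≤ max S0 S1 := le_max_right _ _
    have hm : 0 ≤ max S0 S1 := hS0.trans hm0
    have hcoef : 0 ≤ h * (|dl F x h| + 3/5 * max S0 S1) := by positivity
    rcases le_total v (x+h/2) with hv | hv
    · obtain ⟨g1, -⟩ := ih x (h/2) v hh2 hv1 hv
      have g2 : |F v - F x - av F x (h/2) * (v - x)|
          ≤ h/2 * max S0 S1 * hr ((v-x)/(h/2)) := by
        refine g1.trans ?_
        apply mul_le_mul_of_nonneg_right _ (hr_nonneg _)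
        exact mul_le_mul_of_nonneg_left hm0 hh2.le
      have g3 := step_half (d := dl F x h) (by linarith : 0 ≤ v - x) hh (by linarith) hm g2
      have g4 : F v - F x - av F x (h/2) * (v - x) + dl F x h * (v - x)
          = F v - F x - av F x h * (v - x) := by
        rw [hmid]; unfold dl; ring
      rw [g4] at g3
      refine ⟨g3, g3.trans ?_⟩
      apply mul_le_mul_of_nonneg_left _ hcoef
      apply hr_mono
      apply div_le_div_of_nonneg_right _ hh.le
      linarith
    · obtain ⟨-, g1⟩ := ih (x+h/2) (h/2) v hh2 hv (by linarith)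
      have e1 : x + h/2 + h/2 = x + h := by ring
      rw [e1] at g1
      have g2 : |F v - F (x+h/2) - av F (x+h/2) (h/2) * (v - (x+h/2))|
          ≤ h/2 * max S0 S1 * hr ((x+h-v)/(h/2)) := by
        refine g1.trans ?_
        apply mul_le_mul_of_nonneg_right _ (hr_nonneg _)
        exact mul_le_mul_of_nonneg_left hm1 hh2.le
      have g3 := step_half (d := dl F x h) (by linarith : 0 ≤ x+h-v) hh (by linarith) hm g2
      have g4 : F v - F (x+h/2) - av F (x+h/2) (h/2) * (v - (x+h/2)) + dl F x h * (x + h - v)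
          = F v - F x - av F x h * (v - x) := by
        have a1 := av_mul F x h hh
        have a2 := av_mul F (x+h/2) (h/2) hh2
        rw [e1] at a2
        have a3 : dl F x h = av F x h - av F (x+h/2) (h/2) := by
          rw [hmid]; unfold dl; ring
        rw [a3]
        linarith
      rw [g4] at g3
      refine ⟨g3.trans ?_, g3⟩
      apply mul_le_mul_of_nonneg_left _ hcoef
      apply hr_mono
      apply div_le_div_of_nonneg_right _ hh.le
      linarith

/-- control of all the increments -/
theorem dev_two (F : ℝ → ℝ) (K : ℝ) (hF : ∀ x y, |F y - F x| ≤ K * |y - x|) (hK : 0 ≤ K) :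
    ∀ (D : ℕ) (x h u v : ℝ), 0 < h → x ≤ u → u ≤ v → v ≤ x + h →
      |F v - F u - av F x h * (v - u)| ≤ 2 * (h * SL F (2*K) D x h * hr ((v - u)/h)) := by
  intro D
  induction D with
  | zero =>
    intro x h u v hh hu huv hv
    have h4 : (v-u) / h ≤ hr ((v-u)/h) := le_hr_self (div_nonneg (by linarith) hh.le)
      ((div_le_one hh).2 (by linarith))
    have h5 : v - u ≤ h * hr ((v-u)/h) := by
      rw [div_le_iff₀ hh] at h4
      linarith
    have hav : |av F x h| ≤ K := by
      unfold av
      rw [abs_div, abs_of_pos hh, div_le_iff₀ hh]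
      have := hF x (x+h)
      rwa [show x + h - x = h by ring, abs_of_pos hh] at this
    have h1 := hF u v
    rw [abs_of_nonneg (by linarith : 0 ≤ v - u)] at h1
    have h2 : |av F x h * (v - u)| ≤ K * (v-u) := by
      rw [abs_mul, abs_of_nonneg (by linarith : 0 ≤ v - u)]
      exact mul_le_mul_of_nonneg_right hav (by linarith)
    have h3 := abs_sub (F v - F u) (av F x h * (v - u))
    simp only [SL]
    have h6 := mul_le_mul_of_nonneg_left h5 hK
    have h7 : 0 ≤ K * (h * hr ((v-u)/h)) := by
      have := hr_nonneg ((v-u)/h)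
      positivity
    nlinarith
  | succ D ih =>
    intro x h u v hh hu huv hv
    have hh2 : 0 < h/2 := by positivity
    have hS0 := SL_nonneg F (2*K) (by positivity) D x (h/2)
    have hS1 := SL_nonneg F (2*K) (by positivity) D (x+h/2) (h/2)
    have hmid := av_eq F x h hh
    have e1 : x + h/2 + h/2 = x + h := by ring
    simp only [SL]
    have d0 : ∀ v, x ≤ v → v ≤ x + h/2 → _ := fun v h1 h2 => dev_one F K hF hK D x (h/2) v hh2 h1 h2
    have d1 : ∀ v, x + h/2 ≤ v → v ≤ x + h/2 + h/2 → _ :=
      fun v h1 h2 => dev_one F K hF hK D (x+h/2) (h/2) v hh2 h1 h2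
    set S0 := SL F (2*K) D x (h/2) with hS0d
    set S1 := SL F (2*K) D (x+h/2) (h/2) with hS1d
    have hm0 : S0 ≤ max S0 S1 := le_max_left _ _
    have hm1 : S1 ≤ max S0 S1 := le_max_right _ _
    have hm : 0 ≤ max S0 S1 := hS0.trans hm0
    have hs : 0 ≤ v - u := by linarith
    have hrn := hr_nonneg ((v-u)/h)
    have a0 : av F x (h/2) = av F x h + dl F x h := by rw [hmid]; unfold dl; ring
    have a1 : av F (x+h/2) (h/2) = av F x h - dl F x h := by rw [hmid]; unfold dl; ring
    -- bound for the correction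
    have hcorr : ∀ c : ℝ, |c| ≤ v - u → |dl F x h * c| ≤ h * |dl F x h| * hr ((v-u)/h) := by
      intro c hc
      rw [abs_mul]
      have h4 : (v-u) / h ≤ hr ((v-u)/h) := le_hr_self (div_nonneg (by linarith) hh.le)
        ((div_le_one hh).2 (by linarith))
      have h5 : v - u ≤ h * hr ((v-u)/h) := by
        rw [div_le_iff₀ hh] at h4
        linarith
      calc |dl F x h| * |c| ≤ |dl F x h| * (h * hr ((v-u)/h)) :=
            mul_le_mul_of_nonneg_left (hc.trans h5) (abs_nonneg _)
        _ = h * |dl F x h| * hr ((v-u)/h) := by ring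
    have hhalf := hr_half hs hh
    have fin : ∀ E c : ℝ, |c| ≤ v - u → |E| ≤ 2 * (h * (3/5 * max S0 S1) * hr ((v-u)/h)) →
        |E + dl F x h * c| ≤ 2 * (h * (|dl F x h| + 3/5 * max S0 S1) * hr ((v-u)/h)) := by
      intro E c hc hE
      have h1 := hcorr c hc
      have h2 := abs_add_le E (dl F x h * c)
      have h3 : 0 ≤ h * |dl F x h| * hr ((v-u)/h) := by positivity
      nlinarith
    have conv : ∀ S, 0 ≤ S → S ≤ max S0 S1 →
        h/2 * S * hr ((v-u)/(h/2)) ≤ h * (3/5 * max S0 S1) * hr ((v-u)/h) := by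
      intro S hS hSm
      calc h/2 * S * hr ((v-u)/(h/2)) ≤ h/2 * S * (6/5 * hr ((v-u)/h)) :=
            mul_le_mul_of_nonneg_left hhalf (by positivity)
        _ = h * (3/5*S) * hr ((v-u)/h) := by ring
        _ ≤ h * (3/5 * max S0 S1) * hr ((v-u)/h) := by
            apply mul_le_mul_of_nonneg_right _ hrn
            apply mul_le_mul_of_nonneg_left _ hh.le
            linarith
    rcases le_total v (x+h/2) with hv' | hv'
    · have g := ih x (h/2) u v hh2 hu huv hv'
      have c0 := conv S0 hS0 hm0
      have := fin (F v - F u - av F x (h/2) * (v-u)) (v-u) (by rw [abs_of_nonneg hs])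
        (by linarith)
      rwa [a0, show F v - F u - (av F x h + dl F x h) * (v-u) + dl F x h * (v-u)
        = F v - F u - av F x h * (v-u) by ring] at this
    · rcases le_total (x+h/2) u with hu' | hu'
      · have g := ih (x+h/2) (h/2) u v hh2 hu' huv (by linarith)
        have c1 := conv S1 hS1 hm1
        have := fin (F v - F u - av F (x+h/2) (h/2) * (v-u)) (-(v-u))
          (by rw [abs_neg, abs_of_nonneg hs]) (by linarith)
        rwa [a1, show F v - F u - (av F x h - dl F x h) * (v-u) + dl F x h * (-(v-u))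
          = F v - F u - av F x h * (v-u) by ring] at this
      · -- straddling
        have g0 := (d0 u hu hu').2
        have g1 := (d1 v hv' (by linarith)).1
        have b0 : h/2 * S0 * hr ((x + h/2 - u)/(h/2)) ≤ h * (3/5 * max S0 S1) * hr ((v-u)/h) := by
          refine le_trans ?_ (conv S0 hS0 hm0)
          apply mul_le_mul_of_nonneg_left _ (by positivity)
          apply hr_mono
          apply div_le_div_of_nonneg_right _ hh2.le
          linarith
        have b1 : h/2 * S1 * hr ((v - (x + h/2))/(h/2)) ≤ h * (3/5 * max S0 S1) * hr ((v-u)/h) := by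
          refine le_trans ?_ (conv S1 hS1 hm1)
          apply mul_le_mul_of_nonneg_left _ (by positivity)
          apply hr_mono
          apply div_le_div_of_nonneg_right _ hh2.le
          linarith
        have hE : |(F v - F (x+h/2) - av F (x+h/2) (h/2) * (v - (x+h/2)))
            - (F u - F x - av F x (h/2) * (u - x))|
            ≤ 2 * (h * (3/5 * max S0 S1) * hr ((v-u)/h)) := by
          refine (abs_sub _ _).trans ?_
          linarith [g0.trans b0, g1.trans b1]
        have := fin _ ((x+h/2-u) - (v - (x+h/2))) (by rw [abs_le]; constructor <;> linarith) hE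
        have e2 : (F v - F (x+h/2) - av F (x+h/2) (h/2) * (v - (x+h/2)))
            - (F u - F x - av F x (h/2) * (u - x)) + dl F x h * ((x+h/2-u) - (v - (x+h/2)))
            = F v - F u - av F x h * (v - u) := by
          have m0 := av_mul F x (h/2) hh2
          rw [a0] at m0
          rw [a0, a1]
          linarith
        rwa [e2] at this

end H33EN
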