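import Pool.Agent.H33.EN.SumS
import Pool.Agent.H33.EN.Loc

/-! Dyadic grids with root `[x0, x0+32)`. -/

namespace H33EN

open Finset Pool.Agent.H66.GSC

/-- left end of the cell -/
noncomputable def lf (x0 : ℝ) (k j : ℕ) : ℝ := x0 + 32 * j / 2^k

/-- size of the cells of level `k` -/
noncomputable def sz (k : ℕ) : ℝ := 32 / 2^k

lemma sz_pos (k : ℕ) : 0 < sz k := by unfold sz; positivity

lemma sz_succ (k : ℕ) : sz (k+1) = sz k / 2 := by unfold sz; rw [pow_succ]; field_simp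

lemma lf_even (x0 : ℝ) (k j : ℕ) : lf x0 (k+1) (2*j) = lf x0 k j := by
  unfold lf; rw [pow_succ]; push_cast; field_simp

lemma lf_odd (x0 : ℝ) (k j : ℕ) : lf x0 (k+1) (2*j+1) = lf x0 k j + sz k / 2 := by
  unfold lf sz; rw [pow_succ]; push_cast; field_simp; ring

lemma lf_eq (x0 : ℝ) (k j : ℕ) : lf x0 k j = x0 + j * sz k := by
  unfold lf sz; ring

/-- mean slope on the cell -/
noncomputable def bb (F : ℝ → ℝ) (x0 : ℝ) (k j : ℕ) : ℝ := av F (lf x0 k j) (sz k)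

lemma bb_mean (F : ℝ → ℝ) (x0 : ℝ) (k j : ℕ) :
    bb F x0 k j = (bb F x0 (k+1) (2*j) + bb F x0 (k+1) (2*j+1)) / 2 := by
  unfold bb
  rw [lf_even, lf_odd, sz_succ]
  exact av_eq F _ _ (sz_pos k)

lemma bb_abs (F : ℝ → ℝ) (K : ℝ) (hF : ∀ x y, |F y - F x| ≤ K * |y - x|) (x0 : ℝ) (k j : ℕ) :
    |bb F x0 k j| ≤ K := by
  unfold bb av
  have hh := sz_pos k
  rw [abs_div, abs_of_pos hh, div_le_iff₀ hh]
  have := hF (lf x0 k j) (lf x0 k j + sz k)
  rwa [show lf x0 k j + sz k - lf x0 k j = sz k by ring, abs_of_pos hh] at this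

lemma SS_eq (F : ℝ → ℝ) (x0 c : ℝ) (D k j : ℕ) :
    SS (bb F x0) c D k j = SL F c D (lf x0 k j) (sz k) := by
  induction D generalizing k j with
  | zero => rfl
  | succ D ih =>
    simp only [SS, SL]
    rw [ih, ih, lf_even, lf_odd, sz_succ]
    congr 2
    unfold del dl bb
    rw [lf_even, lf_odd, sz_succ]

/-- two-sided oscillation bound on a cell of the grid -/
lemma dev_cell (F : ℝ → ℝ) (K : ℝ) (hF : ∀ x y, |F y - F x| ≤ K * |y - x|) (hK : 0 ≤ K)
    (x0 : ℝ) (D k j : ℕ) (u v : ℝ) (hu : lf x0 k j ≤ u) (huv : u ≤ v)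
    (hv : v ≤ lf x0 k j + sz k) :
    |F v - F u - bb F x0 k j * (v - u)|
      ≤ 2 * (sz k * SS (bb F x0) (2*K) D k j * hr ((v - u)/sz k)) := by
  rw [SS_eq]
  exact dev_two F K hF hK D _ _ u v (sz_pos k) hu huv hv

/-- inside relation, geometrically -/
lemma sub_lf (x0 : ℝ) {k' j' k j : ℕ} (h : sub k' j' k j) :
    lf x0 k j ≤ lf x0 k' j' ∧ lf x0 k' j' + sz k' ≤ lf x0 k j + sz k := by
  obtain ⟨hk, hj⟩ := h
  obtain ⟨d, rfl⟩ := Nat.exists_eq_add_of_le hk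
  rw [Nat.add_sub_cancel_left] at hj
  have h1 : 2^d * j ≤ j' := by
    rw [← hj]; exact Nat.mul_div_le j' (2^d)
  have h2 : j' + 1 ≤ 2^d * (j+1) := by
    rw [← hj]
    exact Nat.lt_mul_div_succ j' (by positivity)
  have e : sz k = 2^d * sz (k+d) := by
    unfold sz; rw [pow_add]; field_simp
  have h1' : (2:ℝ)^d * j ≤ j' := by exact_mod_cast h1
  have h2' : (j':ℝ) + 1 ≤ 2^d * (j+1) := by exact_mod_cast h2
  have hp := sz_pos (k+d)
  rw [lf_eq, lf_eq, e]
  constructor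
  · nlinarith
  · nlinarith

/-- a point in two cells -/
lemma sub_of_mem (x0 x : ℝ) {k' j' k j : ℕ} (hk : k ≤ k')
    (h1 : lf x0 k' j' ≤ x) (h2 : x < lf x0 k' j' + sz k')
    (h3 : lf x0 k j ≤ x) (h4 : x < lf x0 k j + sz k) : sub k' j' k j := by
  refine ⟨hk, ?_⟩
  obtain ⟨d, rfl⟩ := Nat.exists_eq_add_of_le hk
  rw [Nat.add_sub_cancel_left]
  have e : sz k = 2^d * sz (k+d) := by
    unfold sz; rw [pow_add]; field_simp
  have hp := sz_pos (k+d)
  rw [lf_eq] at h1 h2 h3 h4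
  rw [e] at h3 h4
  have a1 : (j':ℝ) < 2^d * (j+1) := by
    by_contra hcon
    push Not at hcon
    have := mul_le_mul_of_nonneg_right hcon hp.le
    nlinarith
  have a2 : (2:ℝ)^d * j < j' + 1 := by
    by_contra hcon
    push Not at hcon
    have := mul_le_mul_of_nonneg_right hcon hp.le
    nlinarith
  have b1 : j' < 2^d * (j+1) := by exact_mod_cast a1
  have b2 : 2^d * j < j' + 1 := by exact_mod_cast a2
  rw [Nat.div_eq_iff (by positivity)]
  constructor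
  · rw [mul_comm]; omega
  · have : 2^d * (j+1) = j * 2^d + 2^d := by ring
    omega

/-- the cell of level `k` containing the point `x` -/
lemma exists_cell (x0 x : ℝ) (hx0 : x0 ≤ x) (hx1 : x < x0 + 32) (k : ℕ) :
    ∃ j < 2^k, lf x0 k j ≤ x ∧ x < lf x0 k j + sz k := by
  have hp := sz_pos k
  have h0 : 0 ≤ (x - x0)/sz k := div_nonneg (by linarith) hp.le
  refine ⟨⌊(x - x0)/sz k⌋₊, ?_, ?_, ?_⟩
  · rw [Nat.floor_lt h0, div_lt_iff₀ hp]
    unfold sz
    push_cast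
    have : (2:ℝ)^k * (32/2^k) = 32 := by field_simp
    rw [this]; linarith
  · have := Nat.floor_le h0
    rw [lf_eq]
    rw [le_div_iff₀ hp] at this
    linarith
  · have := Nat.lt_floor_add_one ((x - x0)/sz k)
    rw [lf_eq]
    rw [div_lt_iff₀ hp] at this
    linarith

/-- one third trick -/
lemma third (x0 u v : ℝ) (hu : x0 + 32/3 ≤ u) (huv : u ≤ v) (hv : v < x0 + 32) (k : ℕ)
    (h : 3 * (v - u) ≤ sz k) :
    (∃ j < 2^k, lf x0 k j ≤ u ∧ v ≤ lf x0 k j + sz k) ∨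
    (∃ j < 2^k, lf (x0 + 32/3) k j ≤ u ∧ v ≤ lf (x0 + 32/3) k j + sz k) := by
  obtain ⟨j, hj, h1, h2⟩ := exists_cell x0 u (by linarith) (by linarith) k
  obtain ⟨i, hi, h3, h4⟩ := exists_cell (x0 + 32/3) u (by linarith) (by linarith) k
  by_contra hcon
  push Not at hcon
  obtain ⟨c1, c2⟩ := hcon
  have d1 := c1 j hj h1
  have d2 := c2 i hi h3
  have hp := sz_pos k
  have e : (2:ℝ)^k * sz k = 32 := by unfold sz; field_simp
  rw [lf_eq] at h1 h2 h3 h4 d1 d2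
  -- distance of the grid points
  have f1 : |(2:ℝ)^k + 3 * ((i:ℝ) - j)| < 1 := by
    have g : |((2:ℝ)^k + 3 * ((i:ℝ) - j)) * sz k| < sz k := by
      rw [abs_lt]
      constructor
      · nlinarith
      · nlinarith
    rw [abs_mul, abs_of_pos hp] at g
    by_contra hc
    push Not at hc
    nlinarith
  have f2 : |((2:ℤ)^k + 3 * ((i:ℤ) - j))| < 1 := by exact_mod_cast f1
  rw [Int.abs_lt_one_iff] at f2
  have f3 : (3:ℤ) ∣ 2^k := ⟨(j:ℤ) - i, by linarith⟩
  have f4 : (3:ℤ) ∣ 2 := Int.Prime.dvd_pow' (by norm_num) f3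
  omega

/-- choice of a level -/
lemma exists_level (s : ℝ) (hs : 0 < s) (hs1 : s ≤ 32) : ∃ k, s ≤ sz k ∧ sz k < 2 * s := by
  obtain ⟨n, h1, h2⟩ := exists_nat_pow_near (one_le_div₀ hs |>.2 hs1) (one_lt_two)
  refine ⟨n, ?_, ?_⟩
  · unfold sz
    rw [le_div_iff₀ hs] at h1
    rw [le_div_iff₀ (by positivity)]
    linarith
  · unfold sz
    rw [div_lt_iff₀ hs] at h2
    rw [div_lt_iff₀ (by positivity)]
    rw [pow_succ] at h2
    linarith

lemma sz_anti {k l : ℕ} (h : k ≤ l) : sz l ≤ sz k := by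
  unfold sz
  apply div_le_div_of_nonneg_left (by norm_num) (by positivity)
  exact pow_le_pow_right₀ (by norm_num) h

lemma level_of_sz {k k0 : ℕ} (h : sz k ≤ sz k0) : k0 ≤ k := by
  by_contra hc
  push Not at hc
  have : sz k0 < sz k := by
    unfold sz
    apply div_lt_div_of_pos_left (by norm_num) (by positivity)
    exact pow_lt_pow_right₀ (by norm_num) hc
  linarith

/-- a cell of size at least `t/4` inside `[p-t, p]` -/
lemma exists_inside (x0 p t : ℝ) (h0 : x0 ≤ p - t) (h1 : p < x0 + 32) (ht : 0 < t) (ht1 : t ≤ 32) :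
    ∃ k j, j < 2^k ∧ p - t ≤ lf x0 k j ∧ lf x0 k j + sz k ≤ p ∧ t ≤ 4 * sz k ∧ 2 * sz k ≤ t := by
  obtain ⟨k, hk1, hk2⟩ := exists_level (t/4) (by positivity) (by linarith)
  obtain ⟨j, hj, h3, h4⟩ := exists_cell x0 (p-t) h0 (by linarith) k
  have hp := sz_pos k
  have e : lf x0 k (j+1) = lf x0 k j + sz k := by
    rw [lf_eq, lf_eq]; push_cast; ring
  refine ⟨k, j+1, ?_, ?_, ?_, by linarith, by linarith⟩
  · by_contra hc
    push Not at hc
    have hc' : (2:ℝ)^k ≤ (j:ℝ)+1 := by exact_mod_cast hc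
    have e2 : (2:ℝ)^k * sz k = 32 := by unfold sz; field_simp
    rw [lf_eq] at h3
    nlinarith
  · rw [e]; linarith
  · rw [e]; linarith

end H33EN
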