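import Pool.Agent.H33.EN.Count
import Pool.Agent.H33.EN.Bell

/-! The right side mean `A+` compared with the mean over a cell inside `[P - T, P]`. -/

namespace H33EN

open Finset Pool.Agent.H66.GSC MeasureTheory

/-- data -/
structure DR (I : Finset ℕ) (P L R T : ℕ → ℝ) : Prop where
  T0 : ∀ i ∈ I, 0 < T i
  TL : ∀ i ∈ I, 10000 * T i ≤ L i
  TR : ∀ i ∈ I, 10000 * T i ≤ R i
  sep : ∀ i ∈ I, ∀ j ∈ I, i < j → ¬(P i - L i < P j ∧ P j < P i + R i)

lemma DR.mono {I J : Finset ℕ} {P L R T : ℕ → ℝ} (h : DR I P L R T) (hJ : J ⊆ I) :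
    DR J P L R T :=
  ⟨fun i hi => h.T0 i (hJ hi), fun i hi => h.TL i (hJ hi), fun i hi => h.TR i (hJ hi),
    fun i hi j hj => h.sep i (hJ hi) j (hJ hj)⟩

lemma DR.alpha {I : Finset ℕ} {P L R T : ℕ → ℝ} (h : DR I P L R T) {i j : ℕ} (hi : i ∈ I)
    (hj : j ∈ I) (hij : i < j) {x : ℝ} (h1 : P i - T i ≤ x) (h2 : x ≤ P i) (h3 : P j - T j ≤ x)
    (h4 : x ≤ P j) : R i ≤ T j := by
  have hs := h.sep i hi j hj hij
  have t0 := h.T0 i hi
  have tl := h.TL i hi
  by_cases hc : P i - L i < P j
  · have : P i + R i ≤ P j := by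
      by_contra hcon
      push Not at hcon
      exact hs ⟨hc, hcon⟩
    linarith
  · push Not at hc
    linarith

/-- either way -/
lemma DR.alpha' {I : Finset ℕ} {P L R T : ℕ → ℝ} (h : DR I P L R T) {i j : ℕ} (hi : i ∈ I)
    (hj : j ∈ I) (hij : i ≠ j) {x : ℝ} (h1 : P i - T i ≤ x) (h2 : x ≤ P i) (h3 : P j - T j ≤ x)
    (h4 : x ≤ P j) : R i ≤ T j ∨ R j ≤ T i := by
  rcases Nat.lt_or_gt_of_ne hij with h5 | h5
  · exact Or.inl (h.alpha hi hj h5 h1 h2 h3 h4)
  · exact Or.inr (h.alpha hj hi h5 h3 h4 h1 h2)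

/-- the weighted mean of the slope on `[P, P+R]` -/
noncomputable def Ap' (F : ℝ → ℝ) (P R : ℝ) : ℝ := 2 / R^2 * ∫ z in P..(P+R), (F z - F P)

lemma ap_sub (F : ℝ → ℝ) (hFc : Continuous F) (P R m B : ℝ) (hR : 0 < R)
    (hB : ∀ z, P ≤ z → z ≤ P + R → |F z - F P - m * (z - P)| ≤ B) :
    |Ap' F P R - m| ≤ 2 * B / R := by
  have h1 : ∫ z in P..(P+R), (F z - F P - m * (z - P))
      = (∫ z in P..(P+R), (F z - F P)) - m * (R^2/2) := by
    rw [intervalIntegral.integral_sub]
    · congr 1
      rw [intervalIntegral.integral_const_mul]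
      congr 1
      have : ∫ z in P..(P+R), (z - P) = ∫ z in (P - P)..(P + R - P), z := by
        rw [intervalIntegral.integral_comp_sub_right (fun z => z) P]
      rw [this, integral_id]
      ring
    · exact (hFc.sub continuous_const).intervalIntegrable _ _
    · exact (continuous_const.mul (continuous_id.sub continuous_const)).intervalIntegrable _ _
  have h2 : |∫ z in P..(P+R), (F z - F P - m * (z - P))| ≤ B * R := by
    have := intervalIntegral.norm_integral_le_of_norm_le_const (a := P) (b := P + R) (C := B)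
      (f := fun z => F z - F P - m * (z - P)) (by
        intro z hz
        rw [Set.uIoc_of_le (by linarith)] at hz
        rw [Real.norm_eq_abs]
        exact hB z hz.1.le hz.2)
    rw [Real.norm_eq_abs] at this
    rwa [show P + R - P = R by ring, abs_of_pos hR] at this
  have h3 : Ap' F P R - m = 2/R^2 * ∫ z in P..(P+R), (F z - F P - m * (z - P)) := by
    rw [h1]; unfold Ap'; field_simp
  rw [h3, abs_mul, abs_of_pos (by positivity)]
  calc 2/R^2 * |∫ z in P..(P+R), (F z - F P - m * (z - P))| ≤ 2/R^2 * (B*R) :=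
        mul_le_mul_of_nonneg_left h2 (by positivity)
    _ = 2*B/R := by field_simp

lemma exists_depth (n : ℕ) (c ζ : ℝ) (hζ : 0 < ζ) : ∃ D : ℕ, (n:ℝ) * ((21/25)^D * c^2) ≤ ζ := by
  have h1 : Filter.Tendsto (fun D : ℕ => (n:ℝ) * (((21:ℝ)/25)^D * c^2)) Filter.atTop
      (nhds ((n:ℝ) * (0 * c^2))) := by
    apply Filter.Tendsto.const_mul
    apply Filter.Tendsto.mul_const
    exact tendsto_pow_atTop_nhds_zero_of_lt_one (by norm_num) (by norm_num)
  rw [zero_mul, mul_zero] at h1
  exact (h1.eventually (gt_mem_nhds hζ)).exists.imp (fun D hD => le_of_lt hD)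

theorem side_grid (F : ℝ → ℝ) (K : ℝ) (hF : ∀ x y, |F y - F x| ≤ K * |y - x|) (hK : 0 ≤ K)
    (hFc : Continuous F) (x0 ζ : ℝ) (hζ : 0 < ζ) (k0 : ℕ)
    (htail : ∀ k ≥ k0, ∀ n, ∑ i ∈ range n, ee (bb F x0) (k+i) ≤ ζ)
    (J : Finset ℕ) (P L R T : ℕ → ℝ) (h : DR J P L R T) (kR jR : ℕ → ℕ)
    (hk0 : ∀ i ∈ J, k0 ≤ kR i) (hjR : ∀ i ∈ J, jR i < 2^(kR i))
    (hc1 : ∀ i ∈ J, lf x0 (kR i) (jR i) ≤ P i - T i)
    (hc2 : ∀ i ∈ J, P i + R i ≤ lf x0 (kR i) (jR i) + sz (kR i))
    (hs1 : ∀ i ∈ J, 3 * (R i + T i) ≤ sz (kR i))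
    (hs2 : ∀ i ∈ J, sz (kR i) < 6 * (R i + T i))
    (hw1 : ∀ i ∈ J, x0 ≤ P i - T i) (hw2 : ∀ i ∈ J, P i < x0 + 32) :
    ∃ c : ℕ → ℝ, (∀ i ∈ J, ∃ x y, P i - T i ≤ x ∧ x + y ≤ P i ∧ 0 < y ∧ T i ≤ 4 * y ∧
      c i = av F x y) ∧
      ∑ i ∈ J, T i * (Ap' F (P i) (R i) - c i)^2 ≤ 40000000 * ζ ∧
      ∑ i ∈ J, T i * (R i)^2 ≤ 64 * (sz k0)^2 := by
  classical
  have hR0 : ∀ i ∈ J, 0 < R i := fun i hi => by
    have := h.T0 i hi
    have := h.TR i hi
    linarith
  -- the small cells
  have hT : ∀ i ∈ J, ∃ k j, j < 2^k ∧ P i - T i ≤ lf x0 k j ∧ lf x0 k j + sz k ≤ P i ∧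
      T i ≤ 4 * sz k ∧ 2 * sz k ≤ T i := fun i hi => by
    apply exists_inside x0 (P i) (T i) (hw1 i hi) (hw2 i hi) (h.T0 i hi)
    have := hw1 i hi
    have := hw2 i hi
    linarith
  choose! kT jT hT1 hT2 hT3 hT4 hT5 using hT
  set k' : ℕ → ℕ := fun i => kR i + 5 with hk'
  set j' : ℕ → ℕ := fun i => jT i / 2^(kT i - k' i) with hj'
  have hsz5 : ∀ k, sz k = 32 * sz (k+5) := by
    intro k; unfold sz; rw [pow_add]; field_simp; norm_num
  have hlt : ∀ i ∈ J, k' i < kT i := by
    intro i hi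
    by_contra hc
    push Not at hc
    have h1 := sz_anti hc
    have h2 := hsz5 (kR i)
    have h3 := hs1 i hi
    have h4 := h.T0 i hi
    have h5 := h.TR i hi
    have h6 := hT5 i hi
    simp only [hk'] at h1
    linarith
  have hsubT : ∀ i ∈ J, sub (kT i) (jT i) (k' i) (j' i) := fun i hi => ⟨(hlt i hi).le, rfl⟩
  have hsubR : ∀ i ∈ J, sub (kT i) (jT i) (kR i) (jR i) := by
    intro i hi
    have hp := sz_pos (kT i)
    apply sub_of_mem x0 (lf x0 (kT i) (jT i)) _ le_rfl (by linarith)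
      ((hc1 i hi).trans (hT2 i hi))
    · have := hc2 i hi
      have := hT3 i hi
      have := hR0 i hi
      linarith
    · have := hlt i hi
      simp only [hk'] at this
      omega
  have hsub' : ∀ i ∈ J, sub (k' i) (j' i) (kR i) (jR i) := by
    intro i hi
    obtain ⟨h1, h2⟩ := hsubR i hi
    have h3 := hlt i hi
    refine ⟨by simp only [hk']; omega, ?_⟩
    simp only [hj']
    rw [Nat.div_div_eq_div_mul, ← pow_add, ← h2]
    congr 2
    simp only [hk'] at h3 ⊢
    omega
  -- meeting T-intervals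
  have hmeet : ∀ i ∈ J, ∀ i' ∈ J, i ≠ i' → sub (kT i') (jT i') (kT i) (jT i) → R i' ≤ T i := by
    intro i hi i' hi' hne hs
    have hp := sz_pos (kT i')
    obtain ⟨g1, g2⟩ := sub_lf x0 hs
    have a1 := hT2 i hi
    have a2 := hT3 i hi
    have a3 := hT2 i' hi'
    have a4 := hT3 i' hi'
    rcases h.alpha' hi hi' hne (x := lf x0 (kT i') (jT i')) (by linarith) (by linarith)
      (by linarith) (by linarith) with h5 | h5
    · exfalso
      have b1 := sz_anti hs.1
      have b2 := hT4 i' hi'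
      have b3 := hT5 i hi
      have b4 := h.TR i hi
      have b5 := h.T0 i hi
      have b6 := h.T0 i' hi'
      linarith
    · exact h5
  have hnest : ∀ i ∈ J, ∀ i' ∈ J, i ≠ i' → sub (kT i') (jT i') (kT i) (jT i) →
      kT i ≤ k' i' := by
    intro i hi i' hi' hne hs
    have h1 := hmeet i hi i' hi' hne hs
    apply level_of_sz
    have h2 := hsz5 (kR i')
    have h3 := hs2 i' hi'
    have h4 := h.TR i' hi'
    have h5 := hT4 i hi
    have h6 := h.T0 i' hi'
    simp only [hk']
    linarith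
  have hne' : ∀ i ∈ J, ∀ i' ∈ J, i ≠ i' → ¬ (kT i = kT i' ∧ jT i = jT i') := by
    rintro i hi i' hi' hne ⟨e1, e2⟩
    have h1 := hnest i hi i' hi' hne (by rw [e1, e2]; exact sub_self _ _)
    have h2 := hlt i' hi'
    omega
  -- Bellman
  set b := bb F x0 with hbdef
  have hb : ∀ k j, b k j = (b (k+1) (2*j) + b (k+1) (2*j+1)) / 2 := bb_mean F x0
  set D0 : ℕ := k0 + (J.sup kT + 1) with hD0
  have hD : ∀ i ∈ J, kT i < D0 := by
    intro i hi
    have : kT i ≤ J.sup kT := le_sup hi
    omega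
  have hbell := bellman b hb J kT jT k' j' D0 hD hsubT hne' hnest
  have hB : ∑ i ∈ J, (b (kT i) (jT i) - b (k' i) (j' i))^2 / 2^(kT i) ≤ 16 * ζ := by
    have hmap : ∀ i ∈ J, jT i / 2^(kT i - k0) ∈ range (2^k0) := by
      intro i hi
      rw [mem_range, Nat.div_lt_iff_lt_mul (by positivity), ← pow_add]
      have h1 := hlt i hi
      have h2 := hk0 i hi
      simp only [hk'] at h1
      rw [Nat.add_sub_cancel' (by omega)]
      exact hT1 i hi
    rw [← sum_fiberwise_of_maps_to hmap]
    have h1 : ∀ j ∈ range (2^k0), ∑ i ∈ J.filter (fun i => jT i / 2^(kT i - k0) = j),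
        (b (kT i) (jT i) - b (k' i) (j' i))^2 / 2^(kT i)
        ≤ 16 * (En b (J.sup kT + 1) k0 j / 2^k0) := by
      intro j _
      have h2 := hbell (J.sup kT + 1) k0 j (b k0 j) 0 rfl (by simp) (by
        intro i hi _ hlt'
        have := hk0 i hi
        simp only [hk'] at hlt'
        omega)
      have h3 : J.filter (fun i => jT i / 2^(kT i - k0) = j)
          = J.filter (fun i => sub (kT i) (jT i) k0 j) := by
        apply filter_congr
        intro i hi
        unfold sub
        have h1 := hlt i hi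
        have h2 := hk0 i hi
        simp only [hk'] at h1
        constructor
        · intro h4
          exact ⟨by omega, h4⟩
        · intro h4
          exact h4.2
      rw [h3]
      refine h2.trans (le_of_eq ?_)
      simp
      ring
    refine (sum_le_sum h1).trans ?_
    rw [← mul_sum, ← sum_div, sum_En]
    have := htail k0 le_rfl (J.sup kT + 1)
    linarith
  -- depth
  set n : ℕ := J.sup kR + 1 with hn
  obtain ⟨D, hDD⟩ := exists_depth n (2*K) ζ hζ
  set S : ℕ → ℝ := fun i => SS b (2*K) D (kR i) (jR i) with hS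
  have hS0 : ∀ i, 0 ≤ S i := fun i => SS_nonneg b (2*K) (by positivity) D _ _
  have hkn : ∀ i ∈ J, k0 ≤ kR i ∧ kR i < k0 + n ∧ jR i < 2^(kR i) := by
    intro i hi
    have : kR i ≤ J.sup kR := le_sup hi
    exact ⟨hk0 i hi, by omega, hjR i hi⟩
  have hfib : ∀ k j, ∑ i ∈ J.filter (fun i => kR i = k ∧ jR i = j), T i ≤ 1 * sz k := by
    intro k j
    have hmain := sum_len (J.filter (fun i => kR i = k ∧ jR i = j)) P T (lf x0 k j)
      (lf x0 k j + sz k) (by linarith [sz_pos k])
      (fun i hi => (h.T0 i (mem_filter.1 hi).1).le) (by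
        intro i hi
        obtain ⟨hi, e1, e2⟩ := mem_filter.1 hi
        have a1 := hc1 i hi
        have a2 := hc2 i hi
        have a3 := hR0 i hi
        rw [e1, e2] at a1 a2
        exact ⟨a1, by linarith⟩) (by
        intro i hi i' hi' hne x x1 x2 x3 x4
        obtain ⟨hi, e1, e2⟩ := mem_filter.1 hi
        obtain ⟨hi', e1', e2'⟩ := mem_filter.1 hi'
        have a1 := hs1 i hi
        have a2 := hs2 i hi
        have a1' := hs1 i' hi'
        have a2' := hs2 i' hi'
        have b1 := h.TR i hi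
        have b1' := h.TR i' hi'
        have c1 := h.T0 i hi
        have c1' := h.T0 i' hi'
        rw [e1] at a1 a2
        rw [e1'] at a1' a2'
        rcases h.alpha' hi hi' hne x1.le x2 x3.le x4 with h5 | h5
        · linarith
        · linarith)
    linarith
  have hSS := group_SS b (2*K) (by positivity) ζ k0 n htail D J T kR jR hkn 1 zero_le_one hfib
  have hZZ := group_sz k0 n J T kR jR hkn 1 zero_le_one hfib
  refine ⟨fun i => b (kT i) (jT i), ?_, ?_, ?_⟩
  · intro i hi
    exact ⟨lf x0 (kT i) (jT i), sz (kT i), hT2 i hi, hT3 i hi, sz_pos _, hT4 i hi, rfl⟩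
  · -- pointwise
    have hpt : ∀ i ∈ J, T i * (Ap' F (P i) (R i) - b (kT i) (jT i))^2
        ≤ 20000 * (T i * (S i)^2)
          + 256 * ((b (kT i) (jT i) - b (k' i) (j' i))^2 / 2^(kT i)) := by
      intro i hi
      have hTi := h.T0 i hi
      have hRi := hR0 i hi
      have hTR := h.TR i hi
      have hp := sz_pos (kR i)
      have hp' := sz_pos (k' i)
      have g1 : |Ap' F (P i) (R i) - b (kR i) (jR i)| ≤ 2 * (2 * (sz (kR i) * S i * 1)) / R i := by
        apply ap_sub F hFc _ _ _ _ hRi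
        intro z hz1 hz2
        have h1 := dev_cell F K hF hK x0 D (kR i) (jR i) (P i) z
          (by linarith [hc1 i hi]) hz1 (by linarith [hc2 i hi])
        refine h1.trans ?_
        have h2 : hr ((z - P i)/sz (kR i)) ≤ 1 := by
          apply hr_le_one
          rw [div_le_one hp]
          linarith [hs1 i hi]
        have h3 : 0 ≤ sz (kR i) * S i := mul_nonneg hp.le (hS0 i)
        have := mul_le_mul_of_nonneg_left h2 h3
        simp only [hS] at this ⊢
        linarith
      have g2 : |Ap' F (P i) (R i) - b (kR i) (jR i)| ≤ 25 * S i := by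
        refine g1.trans ?_
        rw [div_le_iff₀ hRi]
        have h2 := hs2 i hi
        have h3 := hS0 i
        nlinarith
      have g3 : |b (k' i) (j' i) - b (kR i) (jR i)| ≤ 64 * S i := by
        obtain ⟨q1, q2⟩ := sub_lf x0 (hsub' i hi)
        have h1 := dev_cell F K hF hK x0 D (kR i) (jR i) (lf x0 (k' i) (j' i))
          (lf x0 (k' i) (j' i) + sz (k' i)) q1 (by linarith) q2
        have h2 : b (k' i) (j' i) * sz (k' i)
            = F (lf x0 (k' i) (j' i) + sz (k' i)) - F (lf x0 (k' i) (j' i)) :=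
          av_mul F _ _ hp'
        rw [← h2, show lf x0 (k' i) (j' i) + sz (k' i) - lf x0 (k' i) (j' i) = sz (k' i) by ring,
          show b (k' i) (j' i) * sz (k' i) - bb F x0 (kR i) (jR i) * sz (k' i)
            = (b (k' i) (j' i) - b (kR i) (jR i)) * sz (k' i) by ring, abs_mul,
          abs_of_pos hp'] at h1
        have h3 : hr (sz (k' i) / sz (kR i)) ≤ 1 := by
          apply hr_le_one
          rw [div_le_one hp]
          exact sz_anti (by simp only [hk']; omega)
        have h4 : sz (kR i) = 32 * sz (k' i) := hsz5 (kR i)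
        have h5 : sz (kR i) * S i * hr (sz (k' i) / sz (kR i)) ≤ sz (kR i) * S i * 1 :=
          mul_le_mul_of_nonneg_left h3 (mul_nonneg hp.le (hS0 i))
        have h6 : |b (k' i) (j' i) - b (kR i) (jR i)| * sz (k' i) ≤ 64 * S i * sz (k' i) := by
          refine h1.trans ?_
          simp only [hS] at h5 ⊢
          rw [h4] at h5 ⊢
          linarith
        exact le_of_mul_le_mul_right h6 hp'
      have g4 : |Ap' F (P i) (R i) - b (k' i) (j' i)| ≤ 89 * S i := by
        have : Ap' F (P i) (R i) - b (k' i) (j' i)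
            = (Ap' F (P i) (R i) - b (kR i) (jR i)) - (b (k' i) (j' i) - b (kR i) (jR i)) := by
          ring
        rw [this]
        refine (abs_sub _ _).trans ?_
        linarith
      have g5 : (Ap' F (P i) (R i) - b (k' i) (j' i))^2 ≤ (89 * S i)^2 := by
        rw [← sq_abs]
        exact pow_le_pow_left₀ (abs_nonneg _) g4 2
      have g6 : (Ap' F (P i) (R i) - b (kT i) (jT i))^2
          ≤ 20000 * (S i)^2 + 2 * (b (kT i) (jT i) - b (k' i) (j' i))^2 := by
        nlinarith [sq_nonneg ((Ap' F (P i) (R i) - b (k' i) (j' i))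
          + (b (kT i) (jT i) - b (k' i) (j' i)))]
      have g7 : T i ≤ 128 / 2^(kT i) := by
        have := hT4 i hi
        unfold sz at this
        calc T i ≤ 4 * (32/2^(kT i)) := this
          _ = 128/2^(kT i) := by ring
      calc T i * (Ap' F (P i) (R i) - b (kT i) (jT i))^2
          ≤ T i * (20000 * (S i)^2 + 2 * (b (kT i) (jT i) - b (k' i) (j' i))^2) :=
            mul_le_mul_of_nonneg_left g6 hTi.le
        _ = 20000 * (T i * (S i)^2) + T i * (2 * (b (kT i) (jT i) - b (k' i) (j' i))^2) := by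
            ring
        _ ≤ 20000 * (T i * (S i)^2)
            + 128/2^(kT i) * (2 * (b (kT i) (jT i) - b (k' i) (j' i))^2) := by
            have := mul_le_mul_of_nonneg_right g7
              (by positivity : 0 ≤ 2 * (b (kT i) (jT i) - b (k' i) (j' i))^2)
            linarith
        _ = _ := by ring
    refine (sum_le_sum hpt).trans ?_
    rw [sum_add_distrib, ← mul_sum, ← mul_sum]
    have e1 : ∑ i ∈ J, T i * (S i)^2 ≤ 1632 * ζ := by
      refine hSS.trans ?_
      linarith
    linarith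
  · have h1 : ∑ i ∈ J, T i * (R i)^2 ≤ ∑ i ∈ J, T i * (sz (kR i))^2 := by
      apply sum_le_sum
      intro i hi
      apply mul_le_mul_of_nonneg_left _ (h.T0 i hi).le
      apply pow_le_pow_left₀ (hR0 i hi).le
      have := hs1 i hi
      have := h.T0 i hi
      have := hR0 i hi
      linarith
    linarith

end H33EN
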