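import Pool.Agent.H33.EN.Tree

/-! The depth-`D` majorant `SS c D k j` of the oscillation and its square sums. -/

namespace H33EN

open Finset

/-- the majorant -/
noncomputable def SS (b : ℕ → ℕ → ℝ) (c : ℝ) : ℕ → ℕ → ℕ → ℝ
  | 0, _, _ => c
  | D+1, k, j => |del b k j| + 3/5 * max (SS b c D (k+1) (2*j)) (SS b c D (k+1) (2*j+1))

lemma SS_nonneg (b : ℕ → ℕ → ℝ) (c : ℝ) (hc : 0 ≤ c) (D k j : ℕ) : 0 ≤ SS b c D k j := by
  induction D generalizing k j with
  | zero => exact hc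
  | succ d ih =>
    have h1 := ih (k+1) (2*j)
    have : 0 ≤ max (SS b c d (k+1) (2*j)) (SS b c d (k+1) (2*j+1)) := le_max_of_le_left h1
    simp only [SS]
    positivity

/-- square mean of the majorant at level `k` -/
noncomputable def TT (b : ℕ → ℕ → ℝ) (c : ℝ) (D k : ℕ) : ℝ :=
  (∑ j ∈ range (2^k), (SS b c D k j)^2) / 2^k

lemma TT_nonneg (b : ℕ → ℕ → ℝ) (c : ℝ) (D k : ℕ) : 0 ≤ TT b c D k := by
  unfold TT; positivity

lemma TT_succ (b : ℕ → ℕ → ℝ) (c : ℝ) (hc : 0 ≤ c) (D k : ℕ) :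
    TT b c (D+1) k ≤ 7 * ee b k + 21/25 * TT b c D (k+1) := by
  unfold TT ee
  rw [pow_succ 2 k, mul_comm (2^k) 2, sum_double, pow_succ (2:ℝ) k]
  have hp : (0:ℝ) < 2^k := by positivity
  have h : ∀ j, (SS b c (D+1) k j)^2 ≤ 7 * (del b k j)^2
      + 21/50 * ((SS b c D (k+1) (2*j))^2 + (SS b c D (k+1) (2*j+1))^2) := by
    intro j
    simp only [SS]
    have h1 := SS_nonneg b c hc D (k+1) (2*j)
    have h2 := SS_nonneg b c hc D (k+1) (2*j+1)
    set x := SS b c D (k+1) (2*j)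
    set y := SS b c D (k+1) (2*j+1)
    have h3 : (del b k j)^2 = |del b k j|^2 := (sq_abs _).symm
    rw [h3]
    set a := |del b k j|
    rcases le_total x y with h | h
    · rw [max_eq_right h]
      nlinarith [sq_nonneg (a*6 - 3/5*y), sq_nonneg x]
    · rw [max_eq_left h]
      nlinarith [sq_nonneg (a*6 - 3/5*x), sq_nonneg y]
  have h' : ∑ j ∈ range (2^k), (SS b c (D+1) k j)^2 ≤ 7 * ∑ j ∈ range (2^k), (del b k j)^2
      + 21/50 * ∑ j ∈ range (2^k), ((SS b c D (k+1) (2*j))^2 + (SS b c D (k+1) (2*j+1))^2) := by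
    rw [mul_sum, mul_sum, ← sum_add_distrib]
    exact sum_le_sum (fun j _ => h j)
  rw [div_le_iff₀ hp]
  refine h'.trans (le_of_eq ?_)
  field_simp
  ring

lemma TT_le (b : ℕ → ℕ → ℝ) (c : ℝ) (hc : 0 ≤ c) (D k : ℕ) :
    TT b c D k ≤ 7 * ∑ i ∈ range D, (21/25)^i * ee b (k+i) + (21/25)^D * c^2 := by
  induction D generalizing k with
  | zero =>
    unfold TT
    simp only [SS, sum_const, card_range, range_zero, sum_empty, mul_zero, zero_add, pow_zero,
      one_mul]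
    rw [nsmul_eq_mul]
    push_cast
    rw [mul_comm, mul_div_assoc, div_self (by positivity), mul_one]
  | succ D ih =>
    refine (TT_succ b c hc D k).trans ?_
    have := ih (k+1)
    have h2 : ∀ i, k + 1 + i = k + (i+1) := by intro i; ring
    simp only [h2] at this
    rw [sum_range_succ']
    have h3 : ∑ i ∈ range D, ((21:ℝ)/25)^(i+1) * ee b (k+(i+1))
        = 21/25 * ∑ i ∈ range D, ((21:ℝ)/25)^i * ee b (k+(i+1)) := by
      rw [mul_sum]
      apply sum_congr rfl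
      intro i _
      ring
    rw [h3, pow_succ]
    simp only [pow_zero, one_mul, add_zero]
    nlinarith

/-- total over the levels `k0 ≤ k < k0 + n` -/
lemma sum_TT_le (b : ℕ → ℕ → ℝ) (c : ℝ) (hc : 0 ≤ c) (ζ : ℝ) (k0 : ℕ)
    (htail : ∀ k ≥ k0, ∀ n, ∑ i ∈ range n, ee b (k+i) ≤ ζ) (D n : ℕ) :
    ∑ k ∈ range n, TT b c D (k0+k) ≤ 50 * ζ + n * ((21/25)^D * c^2) := by
  have hζ : 0 ≤ ζ := by simpa using htail k0 le_rfl 0
  have h1 : ∑ k ∈ range n, TT b c D (k0+k) ≤ ∑ k ∈ range n,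
      (7 * ∑ i ∈ range D, (21/25)^i * ee b (k0+k+i) + (21/25)^D * c^2) :=
    sum_le_sum (fun k _ => TT_le b c hc D (k0+k))
  refine h1.trans ?_
  rw [sum_add_distrib, ← mul_sum, sum_comm, sum_const, card_range, nsmul_eq_mul]
  have h2 : ∀ i ∈ range D, ∑ k ∈ range n, ((21:ℝ)/25)^i * ee b (k0+k+i) ≤ (21/25)^i * ζ := by
    intro i _
    rw [← mul_sum]
    apply mul_le_mul_of_nonneg_left _ (by positivity)
    have := htail (k0+i) (by omega) n
    refine le_trans (le_of_eq ?_) this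
    apply sum_congr rfl
    intro k _
    congr 1
    ring
  have h3 := sum_le_sum h2
  rw [← sum_mul] at h3
  have h4 : ∑ i ∈ range D, ((21:ℝ)/25)^i ≤ 25/4 := by
    have := geom_sum_eq (by norm_num : (21:ℝ)/25 ≠ 1) D
    rw [this]
    have hp : 0 ≤ ((21:ℝ)/25)^D := by positivity
    rw [div_le_iff_of_neg (by norm_num)]
    linarith
  have h5 : (∑ i ∈ range D, ((21:ℝ)/25)^i) * ζ ≤ 25/4 * ζ := mul_le_mul_of_nonneg_right h4 hζ
  linarith

end H33EN
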