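import Mathlib

/-! Binary martingales `b k j = (b (k+1) (2j) + b (k+1) (2j+1)) / 2`: energy, the Bellman function
inequality for marked cells. -/

namespace H33EN

open Finset

/-- half difference of the two children -/
noncomputable def del (b : ℕ → ℕ → ℝ) (k j : ℕ) : ℝ := (b (k+1) (2*j) - b (k+1) (2*j+1)) / 2

/-- energy inside the cell, `d` levels, normalised by the length of the cell -/
noncomputable def En (b : ℕ → ℕ → ℝ) : ℕ → ℕ → ℕ → ℝ
  | 0, _, _ => 0
  | d+1, k, j => (del b k j)^2 + (En b d (k+1) (2*j) + En b d (k+1) (2*j+1)) / 2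

lemma En_nonneg (b : ℕ → ℕ → ℝ) (d k j : ℕ) : 0 ≤ En b d k j := by
  induction d generalizing k j with
  | zero => simp [En]
  | succ d ih =>
    have h1 := ih (k+1) (2*j)
    have h2 := ih (k+1) (2*j+1)
    simp only [En]
    positivity

/-- level energy -/
noncomputable def ee (b : ℕ → ℕ → ℝ) (k : ℕ) : ℝ := (∑ j ∈ range (2^k), (del b k j)^2) / 2^k

/-- level square mean -/
noncomputable def EE (b : ℕ → ℕ → ℝ) (k : ℕ) : ℝ := (∑ j ∈ range (2^k), (b k j)^2) / 2^k

lemma ee_nonneg (b : ℕ → ℕ → ℝ) (k : ℕ) : 0 ≤ ee b k := by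
  unfold ee; positivity

lemma sum_double (f : ℕ → ℝ) (n : ℕ) :
    ∑ j ∈ range (2*n), f j = ∑ j ∈ range n, (f (2*j) + f (2*j+1)) := by
  induction n with
  | zero => simp
  | succ n ih =>
    rw [show 2*(n+1) = 2*n+1+1 by ring, sum_range_succ, sum_range_succ, sum_range_succ, ih]
    ring

lemma EE_succ (b : ℕ → ℕ → ℝ) (hb : ∀ k j, b k j = (b (k+1) (2*j) + b (k+1) (2*j+1)) / 2)
    (k : ℕ) : EE b (k+1) = EE b k + ee b k := by
  unfold EE ee
  rw [pow_succ 2 k, mul_comm (2^k) 2, sum_double, ← add_div, ← sum_add_distrib,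
    pow_succ (2:ℝ) k]
  have : ∑ x ∈ range (2 ^ k), ((b k x)^2 + (del b k x)^2)
      = (∑ x ∈ range (2 ^ k), ((b (k+1) (2*x))^2 + (b (k+1) (2*x+1))^2)) / 2 := by
    rw [sum_div]
    apply sum_congr rfl
    intro x _
    rw [hb k x]
    unfold del
    ring
  rw [this]
  field_simp

lemma sum_ee_le (b : ℕ → ℕ → ℝ) (hb : ∀ k j, b k j = (b (k+1) (2*j) + b (k+1) (2*j+1)) / 2)
    (K : ℝ) (hK : ∀ k j, |b k j| ≤ K) (n : ℕ) : ∑ k ∈ range n, ee b k ≤ K^2 := by
  have h1 : ∀ n, ∑ k ∈ range n, ee b k = EE b n - EE b 0 := by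
    intro n
    induction n with
    | zero => simp
    | succ n ih => rw [sum_range_succ, ih, EE_succ b hb n]; ring
  have h2 : EE b n ≤ K^2 := by
    unfold EE
    rw [div_le_iff₀ (by positivity)]
    calc ∑ j ∈ range (2^n), (b n j)^2 ≤ ∑ j ∈ range (2^n), K^2 := by
          apply sum_le_sum
          intro j _
          have := hK n j
          rw [← sq_abs]
          exact pow_le_pow_left₀ (abs_nonneg _) this 2
      _ = K^2 * 2^n := by rw [sum_const, card_range]; simp; ring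
  have h3 : 0 ≤ EE b 0 := by unfold EE; positivity
  rw [h1]; linarith

/-- the tail of the energy is small -/
lemma exists_tail (b : ℕ → ℕ → ℝ) (hb : ∀ k j, b k j = (b (k+1) (2*j) + b (k+1) (2*j+1)) / 2)
    (K : ℝ) (hK : ∀ k j, |b k j| ≤ K) (ζ : ℝ) (hζ : 0 < ζ) :
    ∃ k0, ∀ k ≥ k0, ∀ n, ∑ i ∈ range n, ee b (k+i) ≤ ζ := by
  have hs : Summable (ee b) := by
    apply summable_of_sum_range_le (ee_nonneg b) (sum_ee_le b hb K hK)
  have ht := tendsto_sum_nat_add (ee b)
  have := (ht.eventually (gt_mem_nhds hζ : ∀ᶠ x in nhds (0:ℝ), x < ζ)).exists_forall_of_atTop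
  obtain ⟨k0, hk0⟩ := this
  refine ⟨k0, fun k hk n => ?_⟩
  have h1 := hk0 k hk
  have h2 : Summable (fun i => ee b (i + k)) := (summable_nat_add_iff k).2 hs
  have h3 := h2.sum_le_tsum (range n) (fun i _ => ee_nonneg b _)
  calc ∑ i ∈ range n, ee b (k+i) = ∑ i ∈ range n, ee b (i+k) := by
        apply sum_congr rfl; intro i _; rw [add_comm]
    _ ≤ _ := h3
    _ ≤ ζ := le_of_lt h1

lemma sum_En (b : ℕ → ℕ → ℝ) (d k : ℕ) :
    (∑ j ∈ range (2^k), En b d k j) / 2^k = ∑ i ∈ range d, ee b (k+i) := by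
  induction d generalizing k with
  | zero => simp [En]
  | succ d ih =>
    rw [sum_range_succ']
    have h1 := ih (k+1)
    have h2 : ∀ i, k + 1 + i = k + (i+1) := by intro i; ring
    simp only [h2] at h1
    rw [← h1, add_zero, pow_succ 2 k, mul_comm (2^k) 2, sum_double]
    unfold ee
    simp only [En]
    rw [sum_add_distrib, ← sum_div, pow_succ (2:ℝ) k]
    field_simp
    ring

/-- `(k',j')` is inside `(k,j)` -/
def sub (k' j' k j : ℕ) : Prop := k ≤ k' ∧ j' / 2^(k'-k) = j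

instance (k' j' k j : ℕ) : Decidable (sub k' j' k j) := by unfold sub; infer_instance

lemma sub_self (k j : ℕ) : sub k j k j := by simp [sub]

lemma sub_child (k' j' k j : ℕ) :
    sub k' j' k j ↔ ((k' = k ∧ j' = j) ∨ sub k' j' (k+1) (2*j) ∨ sub k' j' (k+1) (2*j+1)) := by
  unfold sub
  constructor
  · rintro ⟨h1, h2⟩
    rcases Nat.eq_or_lt_of_le h1 with h3 | h3
    · left
      subst h3
      simp at h2
      exact ⟨rfl, h2⟩
    · right
      have h4 : k' - k = (k' - (k+1)) + 1 := by omega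
      rw [h4, pow_succ, ← Nat.div_div_eq_div_mul] at h2
      have h5 : k + 1 ≤ k' := h3
      omega
  · rintro (⟨rfl, rfl⟩ | ⟨h1, h2⟩ | ⟨h1, h2⟩)
    · simp
    · refine ⟨by omega, ?_⟩
      have h4 : k' - k = (k' - (k+1)) + 1 := by omega
      rw [h4, pow_succ, ← Nat.div_div_eq_div_mul, h2]
      omega
    · refine ⟨by omega, ?_⟩
      have h4 : k' - k = (k' - (k+1)) + 1 := by omega
      rw [h4, pow_succ, ← Nat.div_div_eq_div_mul, h2]
      omega

lemma sub_disj (k' j' k j : ℕ) (h1 : sub k' j' (k+1) (2*j)) (h2 : sub k' j' (k+1) (2*j+1)) :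
    False := by
  unfold sub at *
  omega

end H33EN
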